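import Pool.Agent.H50Z.Per.Words

/-!
The coset graph: cubes joined by a perfect matching. Its automorphism group has finite vertex
stabilisers.
-/

namespace Pool.Agent.H50Z.Per

abbrev VV : Type := Gam ⧸ KK

def P (a : Gam) (w : Word) : VV := ((a * val w : Gam) : VV)

def eqv (w v : Word) : Bool := inK (winv w ++ v)

theorem P_eq (a : Gam) (w v : Word) : P a w = P a v ↔ eqv w v = true := by
  rw [P, P, QuotientGroup.eq, eqv, inK_iff, val_append, val_winv]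
  congr! 1
  group

theorem P_append (a : Gam) (w v : Word) : P a (w ++ v) = P (a * val w) v := by
  rw [P, P, val_append, mul_assoc]

theorem smul_P (b a : Gam) (w : Word) : b • P a w = P (b * a) w := by
  rw [P, P, MulAction.Quotient.smul_mk, smul_eq_mul, mul_assoc]

theorem exists_P (x : VV) : ∃ a, x = P a [] := by
  induction x using QuotientGroup.induction_on with
  | H a => exact ⟨a, by simp [P, val_nil]⟩

def Red (x y : VV) : Prop := ∃ a, x = P a [] ∧ y = P a [1]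

def Blue (x y : VV) : Prop := ∃ a, x = P a [] ∧ y = P a [2]

def bl (i : Fin 3) : Word := List.replicate i 0 ++ [2]

theorem P_nil_eq {a b : Gam} (h : P a [] = P b []) :
    ∃ i : Fin 3, b = a * val (List.replicate i 0) := by
  rw [P, P, QuotientGroup.eq] at h
  obtain ⟨i, hi⟩ := h
  refine ⟨i, ?_⟩
  rw [← hi]
  simp [val_nil]

theorem red_iff (a : Gam) (w : Word) (y : VV) : Red (P a w) y ↔ y = P a (w ++ [1]) := by
  have e : P a w = P (a * val w) [] := by rw [← P_append, List.append_nil]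
  rw [e, P_append]
  generalize a * val w = b
  constructor
  · rintro ⟨d, h, rfl⟩
    obtain ⟨i, rfl⟩ := P_nil_eq h
    rw [← P_append, P_eq]
    clear h
    revert i
    decide
  · rintro rfl
    exact ⟨b, rfl, rfl⟩

theorem blue_iff (a : Gam) (w : Word) (y : VV) :
    Blue (P a w) y ↔ ∃ i : Fin 3, y = P a (w ++ bl i) := by
  have e : P a w = P (a * val w) [] := by rw [← P_append, List.append_nil]
  simp only [e, P_append]
  generalize a * val w = b
  constructor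
  · rintro ⟨d, h, rfl⟩
    obtain ⟨i, rfl⟩ := P_nil_eq h
    exact ⟨i, by rw [← P_append]; rfl⟩
  · rintro ⟨i, rfl⟩
    refine ⟨b * val (List.replicate i 0), ?_, by rw [← P_append]; rfl⟩
    rw [← P_append, P_eq]
    revert i
    decide

theorem Red.symm {x y : VV} (h : Red x y) : Red y x := by
  obtain ⟨a, rfl, rfl⟩ := h
  rw [red_iff, P_eq]
  decide

theorem Blue.symm {x y : VV} (h : Blue x y) : Blue y x := by
  obtain ⟨a, rfl, rfl⟩ := h
  rw [blue_iff]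
  exact ⟨0, by rw [P_eq]; decide⟩

def GG : SimpleGraph VV where
  Adj x y := Red x y ∨ Blue x y
  symm := ⟨fun _ _ h => h.elim (fun h => Or.inl h.symm) (fun h => Or.inr h.symm)⟩
  loopless := ⟨by
    rintro x (⟨a, rfl, h⟩ | ⟨a, rfl, h⟩)
    · rw [P_eq] at h; revert h; decide
    · rw [P_eq] at h; revert h; decide⟩

def nb (i : Fin 4) : Word := if h : i.val < 3 then bl ⟨i, h⟩ else [1]

theorem adj_iff (a : Gam) (w : Word) (y : VV) :
    GG.Adj (P a w) y ↔ ∃ i : Fin 4, y = P a (w ++ nb i) := by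
  show Red _ _ ∨ Blue _ _ ↔ _
  rw [red_iff, blue_iff]
  constructor
  · rintro (h | ⟨i, h⟩)
    · exact ⟨3, h⟩
    · refine ⟨i.castSucc, ?_⟩
      rw [h]
      fin_cases i <;> rfl
  · rintro ⟨i, h⟩
    fin_cases i
    · exact Or.inr ⟨0, h⟩
    · exact Or.inr ⟨1, h⟩
    · exact Or.inr ⟨2, h⟩
    · exact Or.inl h

theorem blue_char (x y : VV) : Blue x y ↔ GG.Adj x y ∧
    ∃ z w, GG.Adj y z ∧ GG.Adj z w ∧ GG.Adj x w ∧ z ≠ x ∧ w ≠ y := by
  constructor
  · intro h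
    refine ⟨Or.inr h, ?_⟩
    obtain ⟨a, rfl, rfl⟩ := h
    refine ⟨P a ([2] ++ nb 1), P a (nb 1), (adj_iff _ _ _).2 ⟨1, rfl⟩, (adj_iff _ _ _).2 ⟨2, ?_⟩,
      (adj_iff _ _ _).2 ⟨1, rfl⟩, ?_, ?_⟩
    · rw [P_eq]; decide +kernel
    · rw [Ne, P_eq]; decide +kernel
    · rw [Ne, P_eq]; decide +kernel
  · rintro ⟨h | h, z, w, h1, h2, h3, h4, h5⟩
    · exfalso
      obtain ⟨a, rfl, rfl⟩ := h
      obtain ⟨i, rfl⟩ := (adj_iff _ _ _).1 h1
      obtain ⟨j, rfl⟩ := (adj_iff _ _ _).1 h3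
      obtain ⟨k, h6⟩ := (adj_iff _ _ _).1 h2
      rw [Ne, P_eq] at h4 h5
      rw [P_eq] at h6
      clear h1 h2 h3
      revert i j k
      decide +kernel
    · exact h

theorem not_red_blue {x y : VV} (h1 : Red x y) (h2 : Blue x y) : False := by
  obtain ⟨a, rfl, rfl⟩ := h1
  obtain ⟨i, h⟩ := (blue_iff _ _ _).1 h2
  rw [P_eq] at h
  revert i
  decide +kernel

theorem map_blue (φ : GG ≃g GG) {x y : VV} (h : Blue x y) : Blue (φ x) (φ y) := by
  rw [blue_char] at h ⊢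
  obtain ⟨h0, z, w, h1, h2, h3, h4, h5⟩ := h
  exact ⟨φ.map_adj_iff.2 h0, φ z, φ w, φ.map_adj_iff.2 h1, φ.map_adj_iff.2 h2,
    φ.map_adj_iff.2 h3, fun h => h4 (φ.injective h), fun h => h5 (φ.injective h)⟩

theorem map_red (φ : GG ≃g GG) {x y : VV} (h : Red x y) : Red (φ x) (φ y) := by
  have h1 : GG.Adj (φ x) (φ y) := φ.map_adj_iff.2 (Or.inl h)
  rcases h1 with h1 | h1
  · exact h1
  · have := map_blue φ.symm h1
    simp only [RelIso.symm_apply_apply] at this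
    exact (not_red_blue h this).elim

def Fix (φ : GG ≃g GG) (x : VV) : Prop := φ x = x ∧ ∀ y, Blue x y → φ y = y

theorem fix_blue {φ : GG ≃g GG} {x y : VV} (hx : Fix φ x) (h : Blue x y) : Fix φ y := by
  have hy := hx.2 y h
  refine ⟨hy, fun z hz => ?_⟩
  obtain ⟨a, rfl, rfl⟩ := h
  obtain ⟨i, rfl⟩ := (blue_iff _ _ _).1 hz
  by_cases hi : i = 0
  · subst hi
    have : P a ([2] ++ bl 0) = P a [] := by rw [P_eq]; decide +kernel
    rw [this, hx.1]
  have h1 : Blue (P a []) (P a (bl i)) := (blue_iff _ _ _).2 ⟨i, rfl⟩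
  have h2 : Blue (P a (bl i)) (P a ([2] ++ bl i)) := by
    apply Blue.symm
    refine (blue_iff _ _ _).2 ⟨-i, ?_⟩
    rw [P_eq]
    clear h1 hz
    revert i
    decide +kernel
  have h3 := map_blue φ h2
  have h4 := map_blue φ hz
  rw [hx.2 _ h1] at h3
  rw [hy] at h4
  obtain ⟨j, hj⟩ := (blue_iff _ _ _).1 h4
  obtain ⟨k, hk⟩ := (blue_iff _ _ _).1 h3
  have h5 : φ (P a ([2] ++ bl i)) ≠ P a [] := by
    rw [← hx.1]
    intro h6
    have h7 := φ.injective h6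
    rw [P_eq] at h7
    clear h1 h2 h3 h4 hj hk hz h6
    revert i
    decide +kernel
  rw [hj] at hk h5 ⊢
  rw [P_eq] at hk ⊢
  rw [Ne, P_eq] at h5
  clear h1 h2 h3 h4 hj hz
  revert i j k
  decide +kernel

def Rel (w v : VV) : Prop := ∃ p1 p2 p3 p4 p5, Red w p1 ∧ Blue p1 p2 ∧ Blue p2 p3 ∧ Red p3 p4 ∧
  Blue p4 p5 ∧ Blue p5 v

def relW (w v : Word) : Prop := ∃ i j k l : Fin 3,
  eqv v (w ++ [1] ++ bl i ++ bl j ++ [1] ++ bl k ++ bl l) = true

instance (w v : Word) : Decidable (relW w v) := by unfold relW; infer_instance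

theorem rel_iff (a : Gam) (w v : Word) : Rel (P a w) (P a v) ↔ relW w v := by
  constructor
  · rintro ⟨p1, p2, p3, p4, p5, h1, h2, h3, h4, h5, h6⟩
    rw [red_iff] at h1
    subst h1
    obtain ⟨i, rfl⟩ := (blue_iff _ _ _).1 h2
    obtain ⟨j, rfl⟩ := (blue_iff _ _ _).1 h3
    rw [red_iff] at h4
    subst h4
    obtain ⟨k, rfl⟩ := (blue_iff _ _ _).1 h5
    obtain ⟨l, h7⟩ := (blue_iff _ _ _).1 h6
    exact ⟨i, j, k, l, (P_eq _ _ _).1 h7⟩
  · rintro ⟨i, j, k, l, h⟩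
    exact ⟨_, _, _, _, _, (red_iff _ _ _).2 rfl, (blue_iff _ _ _).2 ⟨i, rfl⟩,
      (blue_iff _ _ _).2 ⟨j, rfl⟩, (red_iff _ _ _).2 rfl, (blue_iff _ _ _).2 ⟨k, rfl⟩,
      (blue_iff _ _ _).2 ⟨l, (P_eq _ _ _).2 h⟩⟩

theorem map_rel (φ : GG ≃g GG) {x y : VV} (h : Rel x y) : Rel (φ x) (φ y) := by
  obtain ⟨p1, p2, p3, p4, p5, h1, h2, h3, h4, h5, h6⟩ := h
  exact ⟨_, _, _, _, _, map_red φ h1, map_blue φ h2, map_blue φ h3, map_red φ h4, map_blue φ h5,
    map_blue φ h6⟩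

theorem key1 : ∀ i j : Fin 3, eqv ([1] ++ bl i ++ bl j) [1] = true ∨ ∃ n m : Fin 3,
    relW ([1] ++ bl i ++ bl j) (bl n ++ bl 1 ++ [1]) ∧
    relW ([1] ++ bl i ++ bl j) (bl m ++ bl 1 ++ [1]) ∧
    ∀ k l : Fin 3, eqv ([1] ++ bl k ++ bl l) [1] = true ∨
      ¬ relW ([1] ++ bl k ++ bl l) (bl n ++ bl 1 ++ [1]) ∨
      ¬ relW ([1] ++ bl k ++ bl l) (bl m ++ bl 1 ++ [1]) ∨
      eqv ([1] ++ bl k ++ bl l) ([1] ++ bl i ++ bl j) = true := by
  decide +kernel

theorem fix_red {φ : GG ≃g GG} {x y : VV} (hx : Fix φ x) (h : Red x y) : Fix φ y := by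
  have red_fix : ∀ {x y : VV}, φ x = x → Red x y → φ y = y := by
    intro x y hx h
    have h1 := map_red φ h
    rw [hx] at h1
    obtain ⟨a, rfl, rfl⟩ := h
    rw [red_iff] at h1
    exact h1
  have hy := red_fix hx.1 h
  obtain ⟨a, rfl, rfl⟩ := h
  have hv : ∀ n : Fin 3, φ (P a (bl n ++ bl 1 ++ [1])) = P a (bl n ++ bl 1 ++ [1]) := by
    intro n
    have h1 : Fix φ (P a (bl n)) := fix_blue hx ((blue_iff _ _ _).2 ⟨n, rfl⟩)
    exact red_fix (h1.2 _ ((blue_iff _ _ _).2 ⟨1, rfl⟩)) ((red_iff _ _ _).2 rfl)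
  have htwo : ∀ i j : Fin 3, φ (P a ([1] ++ bl i ++ bl j)) = P a ([1] ++ bl i ++ bl j) := by
    intro i j
    have h1 := map_blue φ ((blue_iff a [1] _).2 ⟨i, rfl⟩)
    have h2 := map_blue φ ((blue_iff a ([1] ++ bl i) _).2 ⟨j, rfl⟩)
    rw [hy] at h1
    obtain ⟨k, hk⟩ := (blue_iff _ _ _).1 h1
    rw [hk] at h2
    obtain ⟨l, hl⟩ := (blue_iff _ _ _).1 h2
    by_cases h0 : eqv ([1] ++ bl i ++ bl j) [1] = true
    · rw [(P_eq _ _ _).2 h0, hy]
    obtain ⟨n, m, h3, h4, h5⟩ := (key1 i j).resolve_left h0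
    have h6 := map_rel φ ((rel_iff a _ _).2 h3)
    have h7 := map_rel φ ((rel_iff a _ _).2 h4)
    rw [hv, hl, rel_iff] at h6 h7
    rcases h5 k l with h8 | h8 | h8 | h8
    · exfalso
      apply h0
      rw [← P_eq a] at h8 ⊢
      apply φ.injective
      rw [hl, h8, hy]
    · exact (h8 h6).elim
    · exact (h8 h7).elim
    · rw [hl, (P_eq a _ _).2 h8]
  refine ⟨hy, fun b hb => ?_⟩
  have h1 := map_blue φ hb
  rw [hy] at h1
  obtain ⟨i, rfl⟩ := (blue_iff _ _ _).1 hb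
  obtain ⟨j, hj⟩ := (blue_iff _ _ _).1 h1
  have h2 := map_blue φ ((blue_iff a ([1] ++ bl i) _).2 ⟨1, rfl⟩)
  have h3 := map_blue φ ((blue_iff a ([1] ++ bl i) _).2 ⟨2, rfl⟩)
  rw [htwo, hj] at h2 h3
  obtain ⟨k, hk⟩ := (blue_iff _ _ _).1 h2
  obtain ⟨l, hl⟩ := (blue_iff _ _ _).1 h3
  rw [hj]
  rw [P_eq] at hk hl ⊢
  clear h1 h2 h3 hj hb
  revert i j k l
  decide +kernel

theorem P_snoc_zero (a : Gam) (w : Word) : P a (w ++ [0]) = P a w := by
  have e : P a w = P (a * val w) [] := by rw [← P_append, List.append_nil]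
  rw [e, P_append, P_eq]
  decide

theorem induct (Q : VV → Prop) (h0 : Q (P 1 []))
    (h1 : ∀ x y, GG.Adj x y → Q x → Q y) (x : VV) : Q x := by
  obtain ⟨a, rfl⟩ := exists_P x
  obtain ⟨w, rfl⟩ := val_surj a
  have e : P (val w) [] = P 1 w := by
    rw [← one_mul (val w), ← P_append, List.append_nil]
  rw [e]
  clear e
  induction w using List.reverseRecOn with
  | nil => exact h0
  | append_singleton w l ih =>
    fin_cases l
    · exact (P_snoc_zero 1 w).symm ▸ ih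
    · exact h1 _ _ (Or.inl ((red_iff _ _ _).2 rfl)) ih
    · exact h1 _ _ (Or.inr ((blue_iff _ _ _).2 ⟨0, rfl⟩)) ih

theorem rigid (φ : GG ≃g GG) (h : Fix φ (P 1 [])) (x : VV) : φ x = x :=
  (induct (Fix φ) h (fun _ _ hxy hx => hxy.elim (fix_red hx) (fix_blue hx)) x).1

end Pool.Agent.H50Z.Per
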