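import Pool.Agent.H50Z.Per.Graph

namespace Pool.Agent.H50Z.Per

open Pointwise

theorem adj_smul (b : Gam) {x y : VV} (h : GG.Adj x y) : GG.Adj (b • x) (b • y) := by
  rcases h with ⟨a, rfl, rfl⟩ | ⟨a, rfl, rfl⟩
  · exact Or.inl ⟨b * a, smul_P _ _ _, smul_P _ _ _⟩
  · exact Or.inr ⟨b * a, smul_P _ _ _, smul_P _ _ _⟩

/-- left multiplication as a graph automorphism -/
def aut (b : Gam) : GG ≃g GG where
  toEquiv := MulAction.toPerm b
  map_rel_iff' := by
    intro x y
    refine ⟨fun h => ?_, adj_smul b⟩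
    have := adj_smul b⁻¹ h
    simpa using this

theorem aut_apply (b : Gam) (x : VV) : aut b x = b • x := rfl

theorem nbr_eq (a : Gam) : GG.neighborSet (P a []) = Set.range fun i : Fin 4 => P a (nb i) := by
  ext y
  rw [SimpleGraph.mem_neighborSet, adj_iff]
  simp [eq_comm]

theorem nb_inj (a : Gam) : Function.Injective fun i : Fin 4 => P a (nb i) := by
  intro i j h
  simp only [P_eq] at h
  revert i j
  decide +kernel

theorem deg (x : VV) : (GG.neighborSet x).ncard = 4 := by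
  obtain ⟨a, rfl⟩ := exists_P x
  rw [nbr_eq, Set.ncard_range_of_injective (nb_inj a)]
  simp

theorem nbr_finite (x : VV) : (GG.neighborSet x).Finite := by
  obtain ⟨a, rfl⟩ := exists_P x
  rw [nbr_eq]
  exact Set.finite_range _

theorem conn : GG.Connected := by
  have h : ∀ x, GG.Reachable (P 1 []) x :=
    induct _ (SimpleGraph.Reachable.refl _) fun _ _ hxy hx => hx.trans hxy.reachable
  haveI : Nonempty VV := ⟨P 1 []⟩
  exact ⟨fun x y => (h x).symm.trans (h y)⟩

theorem trans (x y : VV) : ∃ φ : GG ≃g GG, φ x = y := by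
  obtain ⟨a, rfl⟩ := exists_P x
  obtain ⟨b, rfl⟩ := exists_P y
  exact ⟨aut (b * a⁻¹), by rw [aut_apply, smul_P]; simp⟩

theorem inf : Infinite VV := by
  have ht : ∀ (k : ℕ) (n : ℤ), ((val [2, 1] ^ k : Gam) : Equiv.Perm ℤ) n = n + k := by
    intro k
    induction k with
    | zero => intro n; simp
    | succ k ih =>
      intro n
      rw [pow_succ, Subgroup.coe_mul, Equiv.Perm.mul_apply, ih, val_apply]
      simp [ev, fl]; ring
  apply Infinite.of_injective (fun k : ℕ => P (val [2, 1] ^ k) [])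
  intro k l h
  obtain ⟨i, hi⟩ := P_nil_eq h
  have h1 := congrArg (fun x : Gam => (x : Equiv.Perm ℤ) 5) hi
  have h2 : ev (List.replicate i 0) 5 = 5 := by
    clear hi h1
    revert i
    decide
  simp only [Subgroup.coe_mul, Equiv.Perm.mul_apply, ht, val_apply, h2] at h1
  omega

theorem fin_aut (S : Finset VV) : {ψ : GG ≃g GG | ψ (P 1 []) ∈ S}.Finite := by
  let T : Set VV := (S : Set VV) ∪ ⋃ s ∈ S, GG.neighborSet s
  have hT : T.Finite := S.finite_toSet.union (S.finite_toSet.biUnion fun s _ => nbr_finite s)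
  let f : (GG ≃g GG) → VV × (Fin 3 → VV) := fun ψ => (ψ (P 1 []), fun i => ψ (P 1 (bl i)))
  have hf : Function.Injective f := by
    intro ψ ψ' h
    have h1 : ψ (P 1 []) = ψ' (P 1 []) := congrArg Prod.fst h
    have h2 : ∀ i, ψ (P 1 (bl i)) = ψ' (P 1 (bl i)) := fun i => congrFun (congrArg Prod.snd h) i
    have h3 := rigid (ψ.trans ψ'.symm) ⟨by simp [h1], fun y hy => by
      obtain ⟨i, rfl⟩ := (blue_iff _ _ _).1 hy
      simp [h2]⟩
    ext x
    have h4 := congrArg ψ' (h3 x)
    simpa using h4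
  apply Set.Finite.of_finite_image _ hf.injOn
  apply (hT.prod (Set.Finite.pi' (fun _ : Fin 3 => hT))).subset
  rintro _ ⟨ψ, hψ, rfl⟩
  refine ⟨Or.inl hψ, fun i => Or.inr (Set.mem_biUnion hψ ?_)⟩
  exact ψ.map_adj_iff.2 (Or.inr ((blue_iff _ _ _).2 ⟨i, rfl⟩))

theorem main (H : SimpleGraph VV) (hH : H ≤ GG) (h2 : ∀ v, (H.neighborSet v).ncard = 2)
    (S : Finset VV) (hS : ∀ v, ∃ s ∈ S, ∃ φ : GG ≃g GG,
      (∀ x y, H.Adj (φ x) (φ y) ↔ H.Adj x y) ∧ φ s = v) : False := by
  let E : Set (VV × VV) := {p | H.Adj p.1 p.2}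
  let pull : (GG ≃g GG) → Set (VV × VV) := fun ψ => {p | H.Adj (ψ p.1) (ψ p.2)}
  have horb : (MulAction.orbit Gam E).Finite := by
    apply ((fin_aut S).image pull).subset
    rintro _ ⟨a, rfl⟩
    obtain ⟨s, hs, φ, hφ, hφs⟩ := hS (aut a⁻¹ (P 1 []))
    refine ⟨(aut a⁻¹).trans φ.symm, ?_, ?_⟩
    · show φ.symm (aut a⁻¹ (P 1 [])) ∈ S
      rw [← hφs]
      simpa using hs
    · ext p
      show H.Adj (φ.symm (a⁻¹ • p.1)) (φ.symm (a⁻¹ • p.2)) ↔ p ∈ a • E
      rw [← hφ, Set.mem_smul_set_iff_inv_smul_mem]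
      simp [E]
  haveI : Finite (MulAction.orbit Gam E) := horb
  haveI : Finite (Gam ⧸ MulAction.stabilizer Gam E) :=
    Finite.of_equiv _ (MulAction.orbitEquivQuotientStabilizer Gam E)
  haveI : (MulAction.stabilizer Gam E).FiniteIndex := Subgroup.finiteIndex_of_finite_quotient
  have hc : val [0] ∈ MulAction.stabilizer Gam E :=
    Subgroup.normalCore_le _ (residual (MulAction.stabilizer Gam E).normalCore)
  have hstep : ∀ w : Word, H.Adj (P 1 []) (P 1 w) → H.Adj (P 1 []) (P 1 (0 :: w)) := by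
    intro w hw
    have h1 : val [0] • (P 1 [], P 1 w) ∈ val [0] • E := Set.smul_mem_smul_set hw
    rw [MulAction.mem_stabilizer_iff.1 hc] at h1
    have h3 : H.Adj (val [0] • P 1 []) (val [0] • P 1 w) := h1
    rw [smul_P, smul_P, mul_one, ← one_mul (val [0]), ← P_append, ← P_append] at h3
    have h4 : P 1 ([0] ++ []) = P 1 [] := by rw [P_eq]; decide
    rwa [h4] at h3
  have h3 := h2 (P 1 [])
  by_cases hb : ∃ i : Fin 3, H.Adj (P 1 []) (P 1 (bl i))
  · obtain ⟨i, hi⟩ := hb
    have hall : ∀ j : Fin 3, H.Adj (P 1 []) (P 1 (bl j)) := by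
      intro j
      have h5 := hstep _ hi
      have h6 := hstep _ h5
      have h7 : eqv (bl i) (bl j) = true ∨ eqv (0 :: bl i) (bl j) = true ∨
          eqv (0 :: 0 :: bl i) (bl j) = true := by
        clear hi h5 h6
        revert i j
        decide +kernel
      rcases h7 with h7 | h7 | h7
      · exact (P_eq 1 _ _).2 h7 ▸ hi
      · exact (P_eq 1 _ _).2 h7 ▸ h5
      · exact (P_eq 1 _ _).2 h7 ▸ h6
    have hinj : Function.Injective fun j : Fin 3 => P 1 (bl j) := by
      intro i j h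
      simp only [P_eq] at h
      clear hi
      revert i j
      decide +kernel
    have hsub : (Set.range fun j : Fin 3 => P 1 (bl j)) ⊆ H.neighborSet (P 1 []) := by
      rintro _ ⟨j, rfl⟩
      exact hall j
    have h8 := Set.ncard_le_ncard hsub ((nbr_finite _).subset fun y hy => hH hy)
    rw [Set.ncard_range_of_injective hinj, h3] at h8
    simp at h8
  · have hsub : H.neighborSet (P 1 []) ⊆ {P 1 [1]} := by
      intro y hy
      rcases hH hy with h | h
      · exact (red_iff _ _ _).1 h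
      · obtain ⟨i, rfl⟩ := (blue_iff _ _ _).1 h
        exact (hb ⟨i, hy⟩).elim
    have h8 := Set.ncard_le_ncard hsub
    rw [h3] at h8
    simp at h8

end Pool.Agent.H50Z.Per
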