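import Mathlib

/-!
The group generated by the 3-cycle (-1 0 1) and the reflections x ↦ -x, x ↦ 1 - x of the integers,
with a decision procedure for words.
-/

namespace Pool.Agent.H50Z.Per

def fc (n : ℤ) : ℤ := if n = -1 then 0 else if n = 0 then 1 else if n = 1 then -1 else n

def fl (l : Fin 3) (n : ℤ) : ℤ := if l = 0 then fc n else if l = 1 then -n else 1 - n

theorem fc3 (n : ℤ) : fc (fc (fc n)) = n := by
  by_cases h1 : n = -1
  · subst h1; decide
  by_cases h2 : n = 0
  · subst h2; decide
  by_cases h3 : n = 1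
  · subst h3; decide
  simp [fc, h1, h2, h3]

def gen (l : Fin 3) : Equiv.Perm ℤ where
  toFun := fl l
  invFun := fun n => if l = 0 then fc (fc n) else fl l n
  left_inv := by
    intro n; fin_cases l <;> simp [fl, fc3]
  right_inv := by
    intro n; fin_cases l <;> simp [fl, fc3]

def Gam : Subgroup (Equiv.Perm ℤ) := Subgroup.closure (Set.range gen)

def gg (l : Fin 3) : Gam := ⟨gen l, Subgroup.subset_closure ⟨l, rfl⟩⟩

abbrev Word := List (Fin 3)

def val (w : Word) : Gam := (w.map gg).prod

def ev : Word → ℤ → ℤ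
  | [], n => n
  | l :: w, n => fl l (ev w n)

theorem val_nil : val [] = 1 := rfl

theorem val_cons (l : Fin 3) (w : Word) : val (l :: w) = gg l * val w := by
  simp [val]

theorem val_append (w v : Word) : val (w ++ v) = val w * val v := by
  simp [val]

theorem val_apply (w : Word) (n : ℤ) : (val w : Equiv.Perm ℤ) n = ev w n := by
  induction w with
  | nil => rfl
  | cons l w ih =>
    rw [val_cons, Subgroup.coe_mul, Equiv.Perm.mul_apply, ih]
    rfl

theorem val_ext {w v : Word} (h : ∀ n, ev w n = ev v n) : val w = val v := by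
  apply Subtype.ext
  ext n
  rw [val_apply, val_apply, h]

theorem aff (w : Word) : ∃ e t : ℤ, (e = 1 ∨ e = -1) ∧ -(w.length : ℤ) ≤ t ∧ t ≤ w.length ∧
    ∀ n : ℤ, ((w.length : ℤ) + 2 ≤ n ∨ n ≤ -((w.length : ℤ) + 2)) → ev w n = e * n + t := by
  induction w with
  | nil => exact ⟨1, 0, Or.inl rfl, by simp, by simp, fun n _ => by simp [ev]⟩
  | cons l w ih =>
    obtain ⟨e, t, he, h1, h2, h⟩ := ih
    simp only [List.length_cons, Nat.cast_add, Nat.cast_one]
    fin_cases l
    · refine ⟨e, t, he, by omega, by omega, fun n hn => ?_⟩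
      have h3 := h n (by omega)
      simp only [ev, fl, h3, fc]
      rcases he with rfl | rfl <;> simp <;> split_ifs <;> omega
    · refine ⟨-e, -t, by omega, by omega, by omega, fun n hn => ?_⟩
      have h3 := h n (by omega)
      simp only [ev, fl, h3]
      simp; ring
    · refine ⟨-e, 1 - t, by omega, by omega, by omega, fun n hn => ?_⟩
      have h3 := h n (by omega)
      simp only [ev, fl, h3]
      simp; ring

/-- the word acts trivially on the window -/
def chk (w : Word) : ℕ → Bool
  | 0 => ev w 0 == 0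
  | k + 1 => chk w k && ev w (k + 1) == (k + 1 : ℤ) && ev w (-(k + 1)) == -(k + 1 : ℤ)

theorem chk_iff (w : Word) (k : ℕ) :
    chk w k = true ↔ ∀ n : ℤ, -(k : ℤ) ≤ n → n ≤ k → ev w n = n := by
  induction k with
  | zero =>
    simp only [chk, beq_iff_eq]
    constructor
    · intro h n h1 h2
      have : n = 0 := by omega
      rw [this, h]
    · intro h; exact h 0 (by simp) (by simp)
  | succ k ih =>
    simp only [chk, Bool.and_eq_true, ih, beq_iff_eq]
    constructor
    · rintro ⟨⟨h1, h2⟩, h3⟩ n h4 h5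
      by_cases h6 : n = k + 1
      · rw [h6, h2]
      by_cases h7 : n = -(k + 1)
      · rw [h7, h3]
      exact h1 n (by push_cast at h4 h5; omega) (by push_cast at h4 h5; omega)
    · intro h
      exact ⟨⟨fun n h1 h2 => h n (by push_cast; omega) (by push_cast; omega),
        h _ (by push_cast; omega) (by push_cast; omega)⟩,
        h _ (by push_cast; omega) (by push_cast; omega)⟩

def triv (w : Word) : Bool := chk w (w.length + 2)

theorem triv_iff (w : Word) : triv w = true ↔ val w = 1 := by
  rw [triv, chk_iff]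
  constructor
  · intro h
    rw [← val_nil]
    apply val_ext
    intro n
    obtain ⟨e, t, he, h1, h2, h3⟩ := aff w
    have h4 := h3 (w.length + 2) (Or.inl le_rfl)
    have h5 := h3 (-(w.length + 2)) (Or.inr le_rfl)
    rw [h _ (by push_cast; omega) (by push_cast; omega)] at h4 h5
    by_cases hn : (w.length : ℤ) + 2 ≤ n ∨ n ≤ -((w.length : ℤ) + 2)
    · rw [h3 n hn]
      rcases he with rfl | rfl
      · have : t = 0 := by omega
        simp [this, ev]
      · omega
    · exact h n (by push_cast; omega) (by push_cast; omega)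
  · intro h n _ _
    rw [← val_apply, h]; rfl

def winv : Word → Word
  | [] => []
  | l :: w => winv w ++ (if l = 0 then [0, 0] else [l])

theorem val_winv (w : Word) : val (winv w) = (val w)⁻¹ := by
  induction w with
  | nil => rfl
  | cons l w ih =>
    rw [winv, val_append, ih, val_cons, mul_inv_rev]
    congr 1
    rw [eq_inv_iff_mul_eq_one]
    have : gg l = val [l] := by simp [val]
    rw [this, ← val_append, ← triv_iff]
    fin_cases l <;> decide

theorem val_surj (x : Gam) : ∃ w, val w = x := by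
  obtain ⟨x, hx⟩ := x
  induction hx using Subgroup.closure_induction with
  | mem x hx =>
    obtain ⟨l, rfl⟩ := hx
    exact ⟨[l], by simp [val, gg]⟩
  | one => exact ⟨[], rfl⟩
  | mul x y hx hy ihx ihy =>
    obtain ⟨w, hw⟩ := ihx
    obtain ⟨v, hv⟩ := ihy
    exact ⟨w ++ v, by rw [val_append, hw, hv]; rfl⟩
  | inv x hx ih =>
    obtain ⟨w, hw⟩ := ih
    exact ⟨winv w, by rw [val_winv, hw]; rfl⟩

theorem val_eq_iff (w v : Word) : val w = val v ↔ triv (winv w ++ v) = true := by
  rw [triv_iff, val_append, val_winv, inv_mul_eq_one]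

/-- The cyclic group of order three generated by the 3-cycle. -/
def KK : Subgroup Gam where
  carrier := {x | ∃ i : Fin 3, x = val (List.replicate i 0)}
  one_mem' := ⟨0, rfl⟩
  mul_mem' := by
    rintro _ _ ⟨i, rfl⟩ ⟨j, rfl⟩
    refine ⟨i + j, ?_⟩
    rw [← val_append, val_eq_iff]
    revert i j
    decide
  inv_mem' := by
    rintro _ ⟨i, rfl⟩
    refine ⟨-i, ?_⟩
    rw [← val_winv, val_eq_iff]
    revert i
    decide

def inK (w : Word) : Bool := triv w || triv (0 :: w) || triv (0 :: 0 :: w)

theorem inK_iff (w : Word) : inK w = true ↔ val w ∈ KK := by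
  simp only [inK, Bool.or_eq_true, triv_iff]
  have h1 : val [0] * val [0, 0] = 1 := by rw [← val_append, ← triv_iff]; decide
  have h2 : val [0, 0] * val [0] = 1 := by rw [← val_append, ← triv_iff]; decide
  have e1 : val (0 :: w) = val [0] * val w := val_append [0] w
  have e2 : val (0 :: 0 :: w) = val [0, 0] * val w := val_append [0, 0] w
  rw [e1, e2]
  constructor
  · rintro ((h | h) | h)
    · exact ⟨0, h⟩
    · exact ⟨2, mul_left_cancel (h.trans h1.symm)⟩
    · exact ⟨1, mul_left_cancel (h.trans h2.symm)⟩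
  · rintro ⟨i, h⟩
    fin_cases i
    · exact Or.inl (Or.inl h)
    · exact Or.inr (by rw [h]; exact h2)
    · exact Or.inl (Or.inr (by rw [h]; exact h1))

/-- The 3-cycle lies in every normal subgroup of finite index. -/
theorem residual (N : Subgroup Gam) [N.Normal] [N.FiniteIndex] : val [0] ∈ N := by
  have ht : ∀ (k : ℕ) (n : ℤ), ((val [2, 1] ^ k : Gam) : Equiv.Perm ℤ) n = n + k := by
    intro k
    induction k with
    | zero => intro n; simp
    | succ k ih =>
      intro n
      rw [pow_succ, Subgroup.coe_mul, Equiv.Perm.mul_apply, ih, val_apply]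
      simp [ev, fl]; ring
  have hN : 0 < N.index := Nat.pos_of_ne_zero Subgroup.FiniteIndex.index_ne_zero
  set τ : Gam := val [2, 1] ^ (4 * N.index) with hτ
  have hτN : τ ∈ N := by
    rw [hτ, pow_mul]
    exact Subgroup.pow_index_mem _ _
  set y : Gam := val [0, 2, 0, 2, 0, 1, 2, 0, 2, 1, 2, 0, 0, 2] with hy
  set c : Gam := val [0] with hc
  have hyv : ∀ n : ℤ, (3 ≤ n ∨ n ≤ -3) → (y : Equiv.Perm ℤ) n = n := by
    intro n hn
    rw [hy, val_apply]
    have hw : ∀ k : Fin 14, ev [0, 2, 0, 2, 0, 1, 2, 0, 2, 1, 2, 0, 0, 2] ((k : ℕ) + 3) = (k : ℕ) + 3 ∧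
        ev [0, 2, 0, 2, 0, 1, 2, 0, 2, 1, 2, 0, 0, 2] (-((k : ℕ) + 3)) = -((k : ℕ) + 3) := by
      decide +kernel
    obtain ⟨e, t, he, -, -, h3⟩ := aff [0, 2, 0, 2, 0, 1, 2, 0, 2, 1, 2, 0, 0, 2]
    simp only [List.length_cons, List.length_nil] at h3
    by_cases h16 : (16 : ℤ) ≤ n ∨ n ≤ -16
    · have h4 := h3 16 (by norm_num)
      have h5 := h3 (-16) (by norm_num)
      have h6 := (hw 13).1
      have h7 := (hw 13).2
      norm_num at h6 h7
      rw [h6] at h4
      rw [h7] at h5
      rw [h3 n (by push_cast; omega)]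
      rcases he with rfl | rfl <;> omega
    · rcases hn with hn | hn
      · have := (hw ⟨(n - 3).toNat, by omega⟩).1
        have e1 : (((n - 3).toNat : ℕ) : ℤ) + 3 = n := by omega
        simpa only [e1] using this
      · have := (hw ⟨(-n - 3).toNat, by omega⟩).2
        have e1 : -((((-n - 3).toNat : ℕ) : ℤ) + 3) = n := by omega
        simpa only [e1] using this
  have hτv : ∀ n : ℤ, (τ : Equiv.Perm ℤ) n = n + (4 * N.index : ℕ) := ht _
  have hcomm : Commute y (τ * c * τ⁻¹) := by
    apply Subtype.ext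
    apply Equiv.Perm.Disjoint.commute
    intro n
    by_cases hn : 3 ≤ n ∨ n ≤ -3
    · exact Or.inl (hyv n hn)
    · right
      obtain ⟨m, rfl⟩ : ∃ m, n = (τ : Equiv.Perm ℤ) m := ⟨_, ((τ : Equiv.Perm ℤ).apply_symm_apply n).symm⟩
      rw [hτv] at hn
      simp only [Subgroup.coe_mul, Subgroup.coe_inv, Equiv.Perm.mul_apply, Equiv.Perm.coe_inv,
        Equiv.symm_apply_apply, EmbeddingLike.apply_eq_iff_eq]
      rw [hc, val_apply]
      simp only [ev, fl, fc]
      simp
      split_ifs <;> omega
  have hyc : y * c = c * c * y := by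
    rw [hy, hc, ← val_append, ← val_append, ← val_append, val_eq_iff]
    decide +kernel
  have hc3 : c * c * c = 1 := by
    rw [hc, ← val_append, ← val_append, ← triv_iff]
    decide
  let π := QuotientGroup.mk' N
  have h1 : π τ = 1 := (QuotientGroup.eq_one_iff _).2 hτN
  have h2 := congrArg π hcomm.eq
  have h3 := congrArg π hyc
  simp only [map_mul, map_inv, h1, one_mul, inv_one, mul_one] at h2 h3
  rw [h2, mul_assoc] at h3
  have h4 : π c = 1 := by
    have := mul_left_cancel h3
    exact (mul_eq_right.1 this.symm)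
  exact (QuotientGroup.eq_one_iff _).1 h4

end Pool.Agent.H50Z.Per
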